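import Pool.Agent.W586.GZ.Stm

/-! Project GZ of helper586: operators defined on the basis (GZ-EXT). -/

set_option autoImplicit false

open Filter Topology

namespace Pool.Agent.W692.GZ.Ext

open Pool.Agent.W586.GZ

theorem main : S_EXT := by
  intro S X _ _ _ e e' hS hM v C hC hv
  -- partial sums
  let s : X → ℕ → X := fun x N => ∑ n ∈ Finset.range N, e' n x • v n
  have hsub : ∀ (x : X) (u : ℕ → X) (M N : ℕ), M ≤ N →
      ∑ n ∈ Finset.range N, e' n x • u n - ∑ n ∈ Finset.range M, e' n x • u n =
        ∑ n ∈ Finset.Ico M N, e' n x • u n := by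
    intro x u M N hMN
    rw [Finset.sum_Ico_eq_sub _ hMN]
  have hcau : ∀ x, CauchySeq (s x) := by
    intro x
    have h1 := (hM.exp x).cauchySeq
    rw [Metric.cauchySeq_iff'] at h1 ⊢
    intro ε hε
    obtain ⟨M, hMc⟩ := h1 (ε / (C + 1)) (by positivity)
    refine ⟨M, fun N hN => ?_⟩
    have h2 := hMc N hN
    rw [dist_eq_norm, hsub x e M N hN] at h2
    rw [dist_eq_norm]
    have h3 : s x N - s x M = ∑ n ∈ Finset.Ico M N, e' n x • v n := hsub x v M N hN
    rw [h3]
    refine (hv (Finset.Ico M N) fun n => e' n x).trans_lt ?_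
    rw [lt_div_iff₀ (by positivity)] at h2
    have h4 : 0 ≤ ‖∑ n ∈ Finset.Ico M N, e' n x • e n‖ := norm_nonneg _
    nlinarith
  choose T hT using fun x => cauchySeq_tendsto_of_complete (hcau x)
  have hadd : ∀ x y, T (x + y) = T x + T y := by
    intro x y
    refine tendsto_nhds_unique (hT (x + y)) (((hT x).add (hT y)).congr fun N => ?_)
    show (∑ n ∈ Finset.range N, e' n x • v n) + ∑ n ∈ Finset.range N, e' n y • v n =
      ∑ n ∈ Finset.range N, e' n (x + y) • v n
    rw [← Finset.sum_add_distrib]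
    exact Finset.sum_congr rfl fun n _ => by rw [map_add, add_smul]
  have hsmul : ∀ (r : ℝ) x, T (r • x) = r • T x := by
    intro r x
    refine tendsto_nhds_unique (hT (r • x)) (((hT x).const_smul r).congr fun N => ?_)
    show r • (∑ n ∈ Finset.range N, e' n x • v n) = ∑ n ∈ Finset.range N, e' n (r • x) • v n
    rw [Finset.smul_sum]
    exact Finset.sum_congr rfl fun n _ => by rw [map_smul, smul_eq_mul, mul_smul]
  have hb : ∀ x, ‖T x‖ ≤ C * ‖x‖ := by
    intro x
    refine le_of_tendsto_of_tendsto' (hT x).norm ((hM.exp x).norm.const_mul C) fun N => ?_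
    exact hv (Finset.range N) fun n => e' n x
  let T0 : X →ₗ[ℝ] X := { toFun := T, map_add' := hadd, map_smul' := fun r x => hsmul r x }
  refine ⟨T0.mkContinuous C hb, fun n => ?_, T0.mkContinuous_norm_le hC hb⟩
  show T (e n) = v n
  refine tendsto_nhds_unique (hT (e n)) (tendsto_const_nhds.congr' ?_)
  filter_upwards [eventually_gt_atTop n] with N hN
  show v n = ∑ m ∈ Finset.range N, e' m (e n) • v m
  rw [Finset.sum_eq_single n]
  · rw [hM.bio, if_pos rfl, one_smul]
  · intro m _ hm
    rw [hM.bio, if_neg hm, zero_smul]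
  · intro h
    exact absurd (Finset.mem_range.2 hN) h

end Pool.Agent.W692.GZ.Ext
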