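import Pool.Agent.W586.GZ.Stm

/-! Project GZ of helper586: matrices of operators (GZ-MATX). -/

set_option autoImplicit false

open Filter Topology

namespace Pool.Agent.W692.GZ.MatX

open Pool.Agent.W586.GZ

theorem main : S_MATX := by
  intro S X _ _ _ e e' hS hM
  refine ⟨fun T => ⟨norm_nonneg _, fun F x c hx => ?_⟩, fun x => ?_, fun x y hxy => ?_⟩
  · have hc := NB.nonneg hS hx
    set z : X := ∑ j ∈ F, x j • e j with hz
    have hzc : ∀ n, e' n z = if n ∈ F then x n else 0 := by
      intro n
      rw [hz, map_sum]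
      by_cases hn : n ∈ F
      · rw [if_pos hn, Finset.sum_eq_single n]
        · rw [map_smul, hM.bio, if_pos rfl, smul_eq_mul, mul_one]
        · intro m _ hm
          rw [map_smul, hM.bio, if_neg (Ne.symm hm), smul_zero]
        · intro h; exact absurd hn h
      · rw [if_neg hn]
        refine Finset.sum_eq_zero fun m hm => ?_
        rw [map_smul, hM.bio, if_neg (fun h : n = m => hn (h ▸ hm)), smul_zero]
    have h1 : ‖z‖ ≤ c := by
      rw [hM.nrm z c hc]
      refine NB.le hS hx fun n => ?_
      rw [hzc]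
      by_cases hn : n ∈ F
      · rw [if_pos hn]
      · rw [if_neg hn, abs_zero]; exact abs_nonneg _
    have h2 : ‖T z‖ ≤ ‖T‖ * c := (T.le_opNorm z).trans (mul_le_mul_of_nonneg_left h1 (norm_nonneg _))
    have h3 := (hM.nrm (T z) (‖T‖ * c) (by positivity)).1 h2
    refine NB.le hS h3 fun i => ?_
    unfold mv
    by_cases hi : i ∈ F
    · rw [if_pos hi, hz, map_sum, map_sum]
      have e1 : ∑ j ∈ F, e' i (T (e j)) * x j = ∑ j ∈ F, e' i (T (x j • e j)) :=
        Finset.sum_congr rfl fun j _ => by rw [map_smul, map_smul, smul_eq_mul, mul_comm]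
      rw [e1]
    · rw [if_neg hi, abs_zero]; exact abs_nonneg _
  · have h1 := (hM.exp x).comp (tendsto_add_atTop_nat 1)
    have h2 := (h1.sub (hM.exp x)).norm
    rw [sub_self, norm_zero] at h2
    refine squeeze_zero_norm (fun n => ?_) h2
    have e1 : ∑ m ∈ Finset.range (n + 1), e' m x • e m - ∑ m ∈ Finset.range n, e' m x • e m =
        e' n x • e n := by
      rw [Finset.sum_range_succ]; abel
    show ‖e' n x‖ ≤ ‖∑ m ∈ Finset.range (n + 1), e' m x • e m -
      ∑ m ∈ Finset.range n, e' m x • e m‖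
    rw [e1]
    have h3 := (hM.nrm (e' n x • e n) _ (norm_nonneg _)).1 le_rfl
    have h4 := NB.coord hS h3 n
    rw [map_smul, hM.bio, if_pos rfl, smul_eq_mul, mul_one] at h4
    exact h4
  · refine tendsto_nhds_unique (hM.exp x) ((hM.exp y).congr fun N => ?_)
    exact Finset.sum_congr rfl fun n _ => by rw [hxy n]

end Pool.Agent.W692.GZ.MatX
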